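import Pool.Agent.Mader.Final

namespace Pool.Agent.Results.MP_7f54ba_co.FracMader

/-- There is an absolute constant `c > 0` such that for every loopless digraph `F` with `n ≥ 1`
vertices and `m` arcs, every finite loopless digraph with fractional dichromatic number at least
`c (n + m)` contains a subdivision of `F`. (For the complete digraph with arcs in both directions
`n + m = n ^ 2`.) -/
theorem result : ∃ c : ℕ, 0 < c ∧ ∀ n : ℕ, 0 < n → ∀ F : Digraph (Fin n),
    (∀ i, ¬ F.Adj i i) → ∀ (V : Type) [Fintype V] (D : Digraph V), (∀ v, ¬ D.Adj v v) →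
      (c : ℝ) * (n + Nat.card {e : Fin n × Fin n // F.Adj e.1 e.2}) ≤
        Pool.Agent.Mader.fracDichromatic D →
      Pool.Agent.Mader.ContainsSubdivision F D :=
  Pool.Agent.Mader.frac_main

end Pool.Agent.Results.MP_7f54ba_co.FracMader
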