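import Pool.Agent.ParBFS.Final

namespace Pool.Agent.Results.MP_7f54ba_co.KnExponent

/-- For every `n ≥ 4`, every finite loopless digraph whose dichromatic number is greater than
`10 * 4 ^ ⌊(2 n ^ 2 + 2 n - 28) / 3⌋` contains a subdivision of the complete digraph on `n`
vertices with arcs in both directions. -/
theorem result : ∀ n : ℕ, 4 ≤ n → ∀ (V : Type) [Fintype V] (D : Digraph V),
    (∀ v, ¬ D.Adj v v) →
    (¬ ∃ col : V → Fin (10 * 4 ^ ((2 * n ^ 2 + 2 * n - 28) / 3)),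
        ∀ v, ¬ Relation.TransGen (fun a b => D.Adj a b ∧ col a = col b) v v) →
    ∃ f : Fin n → V, Function.Injective f ∧
      ∃ (L : Fin n → Fin n → ℕ) (p : Fin n → Fin n → ℕ → V),
        (∀ i j, i ≠ j →
            p i j 0 = f i ∧ p i j (L i j + 1) = f j ∧
            (∀ t, t ≤ L i j → D.Adj (p i j t) (p i j (t + 1))) ∧
            (∀ s t, 1 ≤ s → s ≤ L i j → 1 ≤ t → t ≤ L i j → p i j s = p i j t → s = t) ∧
            (∀ t k, 1 ≤ t → t ≤ L i j → p i j t ≠ f k)) ∧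
        ∀ i j k l, i ≠ j → k ≠ l → (i ≠ k ∨ j ≠ l) →
          ∀ s t, 1 ≤ s → s ≤ L i j → 1 ≤ t → t ≤ L k l → p i j s ≠ p k l t :=
  fun n hn V _ D hD hcol =>
    Pool.Agent.ParBFS.final (Pool.Agent.ParBFS.mbk_main n hn) V D hD hcol

end Pool.Agent.Results.MP_7f54ba_co.KnExponent
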