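import Pool.Agent.OSX82.LogList

namespace Pool.Agent.Results.MP_7f54ba_co.PolynomialBound

/-- There is an absolute constant `c > 0` such that for every loopless digraph `F` with `n ≥ 1`
vertices and `m` arcs, every finite loopless digraph `D` which is not a union of
`c (n + m) min (n + m, ⌊log₂ |V(D)|⌋ + 1)` acyclic sets (no colouring `col` with that many
colours leaves all colour classes without directed closed walks) contains a subdivision of `F`.
For the complete digraph with arcs in both directions `n + m = n ^ 2`. -/
theorem result : ∃ c : ℕ, 0 < c ∧ ∀ n : ℕ, 0 < n → ∀ F : Digraph (Fin n),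
    (∀ i, ¬ F.Adj i i) → ∀ (V : Type) [Fintype V] (D : Digraph V), (∀ v, ¬ D.Adj v v) →
      (¬ ∃ col : V → Fin (c * (n + Nat.card {e : Fin n × Fin n // F.Adj e.1 e.2}) *
          min (n + Nat.card {e : Fin n × Fin n // F.Adj e.1 e.2})
            (Nat.log 2 (Fintype.card V) + 1)),
        ∀ v, ¬ Relation.TransGen (fun x y => D.Adj x y ∧ col x = col y) v v) →
      Pool.Agent.Mader.ContainsSubdivision F D :=
  Pool.Agent.OSX82.poly_main_four

end Pool.Agent.Results.MP_7f54ba_co.PolynomialBound
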